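import Pool.Agent.Helper199.CubicLines

set_option autoImplicit false

namespace Pool.Agent.Results.MP_35f46d_nt.ElevenVariables

/-- For every prime `p` there is a cubic form over the `p`-adic numbers in 11 variables that does
not vanish identically on any two-dimensional subspace. -/
theorem result : ∀ (p : ℕ) [Fact p.Prime],
    ∃ F : MvPolynomial (Fin 11) ℚ_[p], F.IsHomogeneous 3 ∧ F ≠ 0 ∧
      ∀ W : Submodule ℚ_[p] (Fin 11 → ℚ_[p]), Module.finrank ℚ_[p] W = 2 →
        ∃ v ∈ W, MvPolynomial.eval v F ≠ 0 := by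
  intro p hp
  obtain ⟨A, hA, hA0⟩ := Pool.Agent.Helper199.CubicLines.exists_aniso9 p
  exact Pool.Agent.Helper199.CubicLines.no_line A hA hA0

end Pool.Agent.Results.MP_35f46d_nt.ElevenVariables
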